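import Pool.Agent.Helper14.TT.StL

/-!
# Project TT, module NEG: `F(x,y) + F(-x,-y)` for degree at most `3`
-/

set_option autoImplicit false

namespace Pool.Agent.Helper61.TT

open Pool.Agent.Helper14.TT Pool.Agent.Helper14.CV

private lemma two0 : (2 : ZMod 2) = 0 := by decide

private lemma c1 (n : ℕ) : ((n : ℕ) : ZMod 2) = ((n % 4 : ℕ) : ZMod 2) := by
  conv_lhs => rw [← Nat.mod_add_div n 4]
  push_cast
  have : (4 : ZMod 2) = 0 := by decide
  rw [this]; ring

private lemma c2s (n : ℕ) : (((n + 4).choose 2 : ℕ) : ZMod 2) = ((n.choose 2 : ℕ) : ZMod 2) := by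
  have : (n + 4).choose 2 = n.choose 2 + 2 * (2 * n + 3) := by
    simp only [Nat.choose_succ_succ', Nat.choose_one_right, Nat.choose_zero_right, zero_add, Nat.reduceAdd]
    ring
  rw [this]; push_cast; rw [two0]; ring

private lemma c3s (n : ℕ) : (((n + 4).choose 3 : ℕ) : ZMod 2) = ((n.choose 3 : ℕ) : ZMod 2) := by
  have : (n + 4).choose 3 = n.choose 3 + 2 * (2 * n.choose 2 + 3 * n + 2) := by
    simp only [Nat.choose_succ_succ', Nat.choose_one_right, Nat.choose_zero_right, zero_add, Nat.reduceAdd]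
    ring
  rw [this]; push_cast; rw [two0]; ring

private lemma cq (i : ℕ) (h : ∀ n : ℕ, (((n + 4).choose i : ℕ) : ZMod 2) = ((n.choose i : ℕ) : ZMod 2))
    (n : ℕ) : ((n.choose i : ℕ) : ZMod 2) = (((n % 4).choose i : ℕ) : ZMod 2) := by
  have key : ∀ q k : ℕ, (((k + 4 * q).choose i : ℕ) : ZMod 2) = ((k.choose i : ℕ) : ZMod 2) := by
    intro q
    induction q with
    | zero => intro k; simp
    | succ q ih =>
      intro k
      have : k + 4 * (q + 1) = (k + 4 * q) + 4 := by ring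
      rw [this, h, ih]
  conv_lhs => rw [← Nat.mod_add_div n 4]
  exact key _ _

private lemma neg1 {r : ℕ} (hr : 1 < 2 ^ r) (x : ZMod (2 ^ r)) :
    (((-x).val : ℕ) : ZMod 2) = ((x.val : ℕ) : ZMod 2) := by
  have : NeZero (2 ^ r) := ⟨by positivity⟩
  have hr1 : 1 ≤ r := by
    rcases Nat.eq_zero_or_pos r with h | h
    · subst h; simp at hr
    · exact h
  have h2 : (2 : ZMod 2) ^ r = 0 := by rw [two0, zero_pow (by omega)]
  rw [ZMod.neg_val]
  split_ifs with h
  · simp [h]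
  · rw [Nat.cast_sub (ZMod.val_lt x).le]
    push_cast
    rw [h2, zero_sub]
    have : ∀ z : ZMod 2, -z = z := by decide
    exact this _

private lemma neg4 {r : ℕ} (hr : 2 < 2 ^ r) (x : ZMod (2 ^ r)) :
    (-x).val % 4 = (4 - x.val % 4) % 4 := by
  have : NeZero (2 ^ r) := ⟨by positivity⟩
  have hr2 : 2 ≤ r := by
    by_contra h
    have : r ≤ 1 := by omega
    have : 2 ^ r ≤ 2 ^ 1 := Nat.pow_le_pow_right (by norm_num) this
    omega
  have h4 : 4 ∣ 2 ^ r := by
    have : (4 : ℕ) = 2 ^ 2 := by norm_num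
    rw [this]; exact pow_dvd_pow 2 hr2
  have hv := ZMod.val_lt x
  rw [ZMod.neg_val]
  split_ifs with h
  · simp [h]
  · omega

private lemma neg2 {r : ℕ} (hr : 2 < 2 ^ r) (x : ZMod (2 ^ r)) :
    (((-x).val.choose 2 : ℕ) : ZMod 2) = ((x.val.choose 2 : ℕ) : ZMod 2) + ((x.val : ℕ) : ZMod 2) := by
  rw [cq 2 c2s, cq 2 c2s x.val, c1 x.val, neg4 hr x]
  have : x.val % 4 < 4 := Nat.mod_lt _ (by norm_num)
  generalize x.val % 4 = k at this
  interval_cases k <;> decide

private lemma neg3 {r : ℕ} (hr : 2 < 2 ^ r) (x : ZMod (2 ^ r)) :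
    (((-x).val.choose 3 : ℕ) : ZMod 2) = ((x.val.choose 3 : ℕ) : ZMod 2) + ((x.val : ℕ) : ZMod 2) := by
  rw [cq 3 c3s, cq 3 c3s x.val, c1 x.val, neg4 hr x]
  have : x.val % 4 < 4 := Nat.mod_lt _ (by norm_num)
  generalize x.val % 4 = k at this
  interval_cases k <;> decide

private def PP (r s : ℕ) (F : Fn (2 ^ r) (2 ^ s)) : Prop :=
  ∃ β γ : ZMod 2, ∀ x y, F x y + F (-x) (-y) =
    ((L3 : Module.End (ZMod 2) (Fn (2 ^ r) (2 ^ s))) F) 0 0 * (par x * par y) + β * par x + γ * par y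

private lemma pp_zero (r s : ℕ) : PP r s 0 := by
  refine ⟨0, 0, fun x y => ?_⟩
  rw [map_zero]; simp

private lemma pp_add {r s : ℕ} (F G : Fn (2 ^ r) (2 ^ s)) (hF : PP r s F) (hG : PP r s G) :
    PP r s (F + G) := by
  obtain ⟨b, c, h⟩ := hF
  obtain ⟨b', c', h'⟩ := hG
  refine ⟨b + b', c + c', fun x y => ?_⟩
  have e : (F + G) x y + (F + G) (-x) (-y) = (F x y + F (-x) (-y)) + (G x y + G (-x) (-y)) := by
    simp only [Pi.add_apply]; ring
  rw [e, h, h', map_add]
  simp only [Pi.add_apply]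
  ring

private lemma pp_smul {r s : ℕ} (t : ZMod 2) (F : Fn (2 ^ r) (2 ^ s)) (hF : PP r s F) :
    PP r s (t • F) := by
  obtain ⟨b, c, h⟩ := hF
  refine ⟨t * b, t * c, fun x y => ?_⟩
  have e : (t • F) x y + (t • F) (-x) (-y) = t * (F x y + F (-x) (-y)) := by
    simp only [Pi.smul_apply, smul_eq_mul]; ring
  rw [e, h, map_smul]
  simp only [Pi.smul_apply, smul_eq_mul]
  ring

private lemma l3 {q q' : ℕ} (F : Fn q q') :
    (L3 : Module.End (ZMod 2) (Fn q q')) F = dx (dy (dx F)) + dx (dy (dy F)) := by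
  show dx (dy (dx F + dy F)) = _
  rw [map_add, map_add]

private lemma pp_bb (hBb : StBb) {r s i j : ℕ} (hi : i < 2 ^ r) (hj : j < 2 ^ s) (hij : i + j ≤ 3) :
    PP r s (bb i j) := by
  obtain ⟨-, hx, hy, hx0, hy0, -⟩ := hBb r s
  have hsq : ∀ z : ZMod 2, z + z = 0 := by decide
  have b00 : (bb 0 0 : Fn (2 ^ r) (2 ^ s)) 0 0 = 1 := by simp [bb]
  have hi3 : i ≤ 3 := by omega
  have hj3 : j ≤ 3 := by omega
  interval_cases i <;> interval_cases j <;> first | (exfalso; omega) | skip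
  · -- 0 0
    refine ⟨0, 0, fun x y => ?_⟩
    rw [l3, hx0 0 hj, hy0 0 hi]
    simp only [map_zero, bb, Nat.choose_zero_right, Pi.add_apply, Pi.zero_apply]
    simp [hsq]
  · -- 0 1
    refine ⟨0, 0, fun x y => ?_⟩
    rw [l3, hx0 1 hj, hy 0 0 hi hj, hy0 0 hi]
    simp only [map_zero, bb, Nat.choose_zero_right, Nat.choose_one_right, one_mul, neg1 hj]
    simp [hsq]
  · -- 0 2
    refine ⟨0, 1, fun x y => ?_⟩
    rw [l3, hx0 2 hj, hy 0 1 hi hj, hy 0 0 hi (by omega), hx0 0 (by omega)]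
    simp only [map_zero, bb, Nat.choose_zero_right, one_mul, neg2 hj, par]
    simp only [Pi.add_apply, Pi.zero_apply]
    linear_combination hsq (((y.val.choose 2 : ℕ) : ZMod 2))
  · -- 0 3
    refine ⟨0, 1, fun x y => ?_⟩
    rw [l3, hx0 3 hj, hy 0 2 hi hj, hy 0 1 hi (by omega), hx0 1 (by omega)]
    simp only [map_zero, bb, Nat.choose_zero_right, one_mul, neg3 (r := s) (by omega), par]
    simp only [Pi.add_apply, Pi.zero_apply]
    linear_combination hsq (((y.val.choose 3 : ℕ) : ZMod 2))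
  · -- 1 0
    refine ⟨0, 0, fun x y => ?_⟩
    rw [l3, hx 0 0 hi hj, hy0 0 (by omega), hy0 1 hi]
    simp only [map_zero, bb, Nat.choose_zero_right, Nat.choose_one_right, mul_one, neg1 hi]
    simp [hsq]
  · -- 1 1
    refine ⟨0, 0, fun x y => ?_⟩
    rw [l3, hx 0 1 hi hj, hy 0 0 (by omega) hj, hx0 0 (by omega), hy 1 0 hi hj, hy0 1 hi]
    simp only [map_zero, bb, Nat.choose_one_right, Nat.cast_mul, neg1 hi, neg1 hj]
    simp [hsq]
  · -- 1 2
    refine ⟨0, 0, fun x y => ?_⟩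
    rw [l3, hx 0 2 hi hj, hy 0 1 (by omega) hj, hx0 1 (by omega), hy 1 1 hi hj, hy 1 0 hi (by omega),
      hx 0 0 hi (by omega)]
    simp only [Pi.add_apply, Pi.zero_apply, b00]
    simp only [bb, Nat.choose_one_right, Nat.cast_mul, neg1 hi, neg2 hj, par]
    linear_combination hsq (((x.val : ℕ) : ZMod 2) * ((y.val.choose 2 : ℕ) : ZMod 2))
  · -- 2 0
    refine ⟨1, 0, fun x y => ?_⟩
    rw [l3, hx 1 0 hi hj, hy0 1 (by omega), hy0 2 hi]
    simp only [map_zero, bb, Nat.choose_zero_right, mul_one, neg2 hi, par]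
    simp only [Pi.add_apply, Pi.zero_apply]
    linear_combination hsq (((x.val.choose 2 : ℕ) : ZMod 2))
  · -- 2 1
    refine ⟨0, 0, fun x y => ?_⟩
    rw [l3, hx 1 1 hi hj, hy 1 0 (by omega) hj, hx 0 0 (by omega) (by omega), hy 2 0 hi hj, hy0 2 hi]
    simp only [map_zero, Pi.add_apply, Pi.zero_apply, b00]
    simp only [bb, Nat.choose_one_right, Nat.cast_mul, neg1 hj, neg2 hi, par]
    linear_combination hsq (((x.val.choose 2 : ℕ) : ZMod 2) * ((y.val : ℕ) : ZMod 2))
  · -- 3 0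
    refine ⟨1, 0, fun x y => ?_⟩
    rw [l3, hx 2 0 hi hj, hy0 2 (by omega), hy0 3 hi]
    simp only [map_zero, bb, Nat.choose_zero_right, mul_one, neg3 (r := r) (by omega), par]
    simp only [Pi.add_apply, Pi.zero_apply]
    linear_combination hsq (((x.val.choose 3 : ℕ) : ZMod 2))

theorem hNegT (hBb : StBb) : NegT := by
  intro r s F _ _ hF
  have hN := (hBb r s).2.2.2.2.2 F
  have : PP r s F := by
    rw [hN]
    refine Finset.sum_induction _ (PP r s) pp_add (pp_zero r s) fun i hi => ?_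
    refine Finset.sum_induction _ (PP r s) pp_add (pp_zero r s) fun j hj => ?_
    rw [Finset.mem_range] at hi hj
    by_cases hij : i + j ≤ 3
    · exact pp_smul _ _ (pp_bb hBb hi hj hij)
    · have h0 := hF i j (by push Not at hij; exact_mod_cast hij)
      rw [h0]
      simp only [Pi.zero_apply, zero_smul]
      exact pp_zero r s
  exact this

end Pool.Agent.Helper61.TT
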